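import Mathlib

set_option autoImplicit false

namespace Pool.Agent.Results.MP_fa7ade_co.FourAndSix

/-- A digraph on `Fin n` is given by its arc relation `E` (so there are no parallel arcs).
`IsGood E`: it has no loops and all in- and out-degrees are at least `n / 2`. -/
def IsGood {n : ℕ} (E : Fin n → Fin n → Prop) : Prop :=
  (∀ u, ¬ E u u) ∧ (∀ u, (n / 2 : ℝ) ≤ {v | E u v}.ncard) ∧
    ∀ u, (n / 2 : ℝ) ≤ {v | E v u}.ncard

/-- A directed Hamiltonian cycle `v₀ → v₁ → ⋯ → v_{n-1} → v₀`, as a bijection from `ℤ/n`. -/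
def IsHamCycle {n : ℕ} (E : Fin n → Fin n → Prop) (v : ZMod n ≃ Fin n) : Prop :=
  ∀ i, E (v i) (v (i + 1))

/-- The two closed sequences have no arc in common. -/
def ArcDisjoint {n : ℕ} (v w : ZMod n ≃ Fin n) : Prop :=
  ∀ i j, ¬ (v i = w j ∧ v (i + 1) = w (j + 1))

/-! ### Generic part -/

def suc {n : ℕ} [NeZero n] (l : List (Fin n)) (x : Fin n) : Fin n := l.getD x.1 0

def hamB {n : ℕ} [NeZero n] (l : List (Fin n)) : Bool :=
  decide ((List.range n).map (fun k => (suc l)^[k] 0)).Nodup && decide ((suc l)^[n] 0 = 0)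

def check {n : ℕ} [NeZero n] (outs : List (List (Fin n))) : Bool :=
  outs.sections.all (fun l1 => !(hamB l1) || outs.sections.all (fun l2 => !(hamB l2) ||
    (List.finRange n).any (fun x => suc l1 x == suc l2 x)))

lemma iter_eq {n : ℕ} (v : ZMod n ≃ Fin n) (s : Fin n → Fin n)
    (hs : ∀ x, s x = v (v.symm x + 1)) (k : ℕ) (x : Fin n) :
    s^[k] x = v (v.symm x + (k : ZMod n)) := by
  induction k with
  | zero => simp
  | succ k ih =>
    rw [Function.iterate_succ_apply', ih, hs]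
    simp only [Equiv.symm_apply_apply]
    congr 1
    push_cast
    ring

lemma ham_of_cycle {n : ℕ} [NeZero n] (v : ZMod n ≃ Fin n) (l : List (Fin n))
    (hs : ∀ x, suc l x = v (v.symm x + 1)) : hamB l = true := by
  rw [hamB, Bool.and_eq_true, decide_eq_true_eq, decide_eq_true_eq]
  constructor
  swap
  · rw [iter_eq v _ hs]
    simp
  refine List.Nodup.map_on ?_ List.nodup_range
  intro j hj k hk h
  rw [List.mem_range] at hj hk
  have h' : (suc l)^[j] 0 = (suc l)^[k] 0 := h
  rw [iter_eq v _ hs, iter_eq v _ hs] at h'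
  have h2 := add_left_cancel (v.injective h')
  have h3 := (ZMod.natCast_eq_natCast_iff' j k n).1 h2
  rwa [Nat.mod_eq_of_lt hj, Nat.mod_eq_of_lt hk] at h3

lemma no_two {n : ℕ} [NeZero n] (outs : List (List (Fin n))) (hchk : check outs = true)
    (v w : ZMod n ≃ Fin n) (lv lw : List (Fin n)) (hlv : lv ∈ outs.sections)
    (hlw : lw ∈ outs.sections) (hv : ∀ x, suc lv x = v (v.symm x + 1))
    (hw : ∀ x, suc lw x = w (w.symm x + 1)) : ¬ ArcDisjoint v w := by
  intro hd
  have h1 := List.all_eq_true.1 hchk lv hlv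
  rw [ham_of_cycle v lv hv] at h1
  simp only [Bool.not_true, Bool.false_or] at h1
  have h2 := List.all_eq_true.1 h1 lw hlw
  rw [ham_of_cycle w lw hw] at h2
  simp only [Bool.not_true, Bool.false_or] at h2
  rw [List.any_eq_true] at h2
  obtain ⟨x, -, hx⟩ := h2
  have hx' : suc lv x = suc lw x := by simpa using hx
  rw [hv, hw] at hx'
  exact hd (v.symm x) (w.symm x) ⟨by simp, hx'⟩

/-! ### Four vertices -/

def out4 : Fin 4 → List (Fin 4) := ![[1, 3], [2, 3], [0, 1], [0, 2]]

def outs4 : List (List (Fin 4)) := [[1, 3], [2, 3], [0, 1], [0, 2]]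

def E4 (x y : Fin 4) : Prop := y ∈ out4 x

instance : DecidableRel E4 := fun x y => inferInstanceAs (Decidable (y ∈ out4 x))

lemma loop4 : ∀ u, ¬ E4 u u := by decide +kernel
lemma o4 : ∀ u, (Finset.univ.filter (fun v => E4 u v)).card = 2 := by decide +kernel
lemma i4 : ∀ u, (Finset.univ.filter (fun v => E4 v u)).card = 2 := by decide +kernel
lemma chk4 : check outs4 = true := by decide +kernel

lemma good4 : IsGood E4 := by
  refine ⟨loop4, ?_, ?_⟩
  · intro u
    have h : {v | E4 u v} = ((Finset.univ.filter (fun v => E4 u v) : Finset (Fin 4)) :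
        Set (Fin 4)) := by ext v; simp
    rw [h, Set.ncard_coe_finset, o4]
    norm_num
  · intro u
    have h : {v | E4 v u} = ((Finset.univ.filter (fun v => E4 v u) : Finset (Fin 4)) :
        Set (Fin 4)) := by ext v; simp
    rw [h, Set.ncard_coe_finset, i4]
    norm_num

lemma sec4 (v : ZMod 4 ≃ Fin 4) (hv : IsHamCycle E4 v) : ∃ l ∈ outs4.sections,
    ∀ x, suc l x = v (v.symm x + 1) := by
  have h : ∀ x, v (v.symm x + 1) ∈ out4 x := by
    intro x
    have := hv (v.symm x)
    rwa [Equiv.apply_symm_apply] at this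
  refine ⟨[v (v.symm 0 + 1), v (v.symm 1 + 1), v (v.symm 2 + 1), v (v.symm 3 + 1)], ?_, ?_⟩
  · rw [List.mem_sections]
    exact List.Forall₂.cons (h 0) (List.Forall₂.cons (h 1) (List.Forall₂.cons (h 2)
      (List.Forall₂.cons (h 3) List.Forall₂.nil)))
  · intro x
    fin_cases x <;> rfl

/-! ### Six vertices -/

def out6 : Fin 6 → List (Fin 6) :=
  ![[1, 2, 4], [0, 2, 5], [0, 1, 3], [1, 4, 5], [2, 3, 5], [0, 3, 4]]

def outs6 : List (List (Fin 6)) :=
  [[1, 2, 4], [0, 2, 5], [0, 1, 3], [1, 4, 5], [2, 3, 5], [0, 3, 4]]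

def E6 (x y : Fin 6) : Prop := y ∈ out6 x

instance : DecidableRel E6 := fun x y => inferInstanceAs (Decidable (y ∈ out6 x))

lemma loop6 : ∀ u, ¬ E6 u u := by decide +kernel
lemma o6 : ∀ u, (Finset.univ.filter (fun v => E6 u v)).card = 3 := by decide +kernel
lemma i6 : ∀ u, (Finset.univ.filter (fun v => E6 v u)).card = 3 := by decide +kernel
set_option maxRecDepth 100000 in
lemma chk6 : check outs6 = true := by decide +kernel

lemma good6 : IsGood E6 := by
  refine ⟨loop6, ?_, ?_⟩
  · intro u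
    have h : {v | E6 u v} = ((Finset.univ.filter (fun v => E6 u v) : Finset (Fin 6)) :
        Set (Fin 6)) := by ext v; simp
    rw [h, Set.ncard_coe_finset, o6]
    norm_num
  · intro u
    have h : {v | E6 v u} = ((Finset.univ.filter (fun v => E6 v u) : Finset (Fin 6)) :
        Set (Fin 6)) := by ext v; simp
    rw [h, Set.ncard_coe_finset, i6]
    norm_num

lemma sec6 (v : ZMod 6 ≃ Fin 6) (hv : IsHamCycle E6 v) : ∃ l ∈ outs6.sections,
    ∀ x, suc l x = v (v.symm x + 1) := by
  have h : ∀ x, v (v.symm x + 1) ∈ out6 x := by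
    intro x
    have := hv (v.symm x)
    rwa [Equiv.apply_symm_apply] at this
  refine ⟨[v (v.symm 0 + 1), v (v.symm 1 + 1), v (v.symm 2 + 1), v (v.symm 3 + 1),
    v (v.symm 4 + 1), v (v.symm 5 + 1)], ?_, ?_⟩
  · rw [List.mem_sections]
    exact List.Forall₂.cons (h 0) (List.Forall₂.cons (h 1) (List.Forall₂.cons (h 2)
      (List.Forall₂.cons (h 3) (List.Forall₂.cons (h 4) (List.Forall₂.cons (h 5)
        List.Forall₂.nil)))))
  · intro x
    fin_cases x <;> rfl

/-- For `n = 4` and for `n = 6` there is a digraph on `n` vertices with minimum semidegree at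
least `n / 2` in which any two directed Hamiltonian cycles have an arc in common. -/
theorem result :
    (∃ E : Fin 4 → Fin 4 → Prop, IsGood E ∧
      ∀ v w : ZMod 4 ≃ Fin 4, IsHamCycle E v → IsHamCycle E w → ¬ ArcDisjoint v w) ∧
    (∃ E : Fin 6 → Fin 6 → Prop, IsGood E ∧
      ∀ v w : ZMod 6 ≃ Fin 6, IsHamCycle E v → IsHamCycle E w → ¬ ArcDisjoint v w) := by
  constructor
  · refine ⟨E4, good4, fun v w hv hw => ?_⟩
    obtain ⟨lv, hlv, h1⟩ := sec4 v hv
    obtain ⟨lw, hlw, h2⟩ := sec4 w hw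
    exact no_two outs4 chk4 v w lv lw hlv hlw h1 h2
  · refine ⟨E6, good6, fun v w hv hw => ?_⟩
    obtain ⟨lv, hlv, h1⟩ := sec6 v hv
    obtain ⟨lw, hlw, h2⟩ := sec6 w hw
    exact no_two outs6 chk6 v w lv lw hlv hlw h1 h2

end Pool.Agent.Results.MP_fa7ade_co.FourAndSix
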